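import Pool.Agent.Y993.NF.P1

/-! Stage 4: the linear dissipation (adapted from `Pool.Agent.Y274.NE.B5`). -/

open Set Filter Topology MeasureTheory

set_option autoImplicit false

namespace Pool.Agent.Y993.NF

open Pool.Agent.Y5 Pool.Agent.Y5.D Pool.Agent.Y5.E Pool.Agent.Y5.F Pool.Agent.Y274.NE
open Pool.Agent.Y275.ND (finite_ball fib syn zl zr zlr zl_supp zr_supp zl_good zr_good)
open Pool.Agent.Y691.ND.F (sum_rap rap_all)

section conc

variable {J : Type} {ν α α' κ μ lam Λ M : ℝ} {g : J → ℕ} {F L C ℓ N G : ℕ → ℝ} {B : ℕ → ℕ → ℝ}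
  {e : Ix J → Fam} {c : Ix J → Ix J → Ix J → ℝ}

lemma Sd_nonneg (hS : Sq4 κ μ lam Λ M L C ℓ B) (n : ℕ) : 0 ≤ Sd κ μ L n := by
  have := KL_one hS n
  unfold Sd
  positivity

lemma dF_nonneg (hS : Sq4 κ μ lam Λ M L C ℓ B) (a : Ix J) : 0 ≤ dF ℓ (Sd κ μ L) g a := by
  cases a with
  | inl n => exact hS.ℓ_nonneg n
  | inr j => exact Sd_nonneg hS (g j)

lemma dF_le (hS : Sq4 κ μ lam Λ M L C ℓ B) (a : Ix J) :
    dF ℓ (Sd κ μ L) g a ≤ Sd κ μ L (gr g a) := by
  cases a with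
  | inl n =>
    have h1 := ell_le hS n
    have h2 := KL_one hS n
    have h3 : 1 ≤ Real.exp μ := Real.one_le_exp (by linarith [mu_one hS])
    simp only [dF, gr, Sd]
    nlinarith
  | inr j => exact le_rfl

lemma Sd_le (hS : Sq4 κ μ lam Λ M L C ℓ B) (n : ℕ) : Sd κ μ L n ≤ Real.exp μ * L n := by
  unfold Sd
  exact mul_le_mul_of_nonneg_left (KL_le hS n) (Real.exp_pos _).le

lemma dF_le' (hS : Sq4 κ μ lam Λ M L C ℓ B) (a : Ix J) :
    dF ℓ (Sd κ μ L) g a ≤ Real.exp μ * L (gr g a) := (dF_le hS a).trans (Sd_le hS _)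

lemma dF_rap (hS : Sq4 κ μ lam Λ M L C ℓ B) {z : Ix J → ℝ}
    (hz : ∀ p : ℕ, ∃ Cp, ∀ a, L (gr g a) ^ p * |z a| ≤ Cp) (p : ℕ) :
    ∃ Cp, ∀ a, L (gr g a) ^ p * |dF ℓ (Sd κ μ L) g a * z a| ≤ Cp := by
  obtain ⟨Cq, hCq⟩ := hz (p + 1)
  refine ⟨Real.exp μ * Cq, fun a => ?_⟩
  have h1 := dF_le' (g := g) hS a
  have h2 := dF_nonneg (g := g) hS a
  have h3 := L_one hS (gr g a)
  have h4 : (0:ℝ) ≤ L (gr g a) := by linarith
  rw [abs_mul, abs_of_nonneg h2]
  calc L (gr g a) ^ p * (dF ℓ (Sd κ μ L) g a * |z a|)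
      ≤ L (gr g a) ^ p * ((Real.exp μ * L (gr g a)) * |z a|) := by gcongr
    _ = Real.exp μ * (L (gr g a) ^ (p + 1) * |z a|) := by rw [pow_succ]; ring
    _ ≤ Real.exp μ * Cq := mul_le_mul_of_nonneg_left (hCq a) (Real.exp_pos _).le

/-- bounds for the group weights -/
lemma wt_bound (hc : Conc4 ν α α' κ μ lam g F L ℓ N G e) (hS : Sq4 κ μ lam Λ M L C ℓ B) (m p : ℕ) :
    ∃ (D : ℝ) (q : ℕ), ∀ n, |(2 * Real.pi * F n) ^ m * (Sd κ μ L n) ^ p| ≤ D * L n ^ q := by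
  obtain ⟨D1, hD1, hFL⟩ := hc.F_L
  refine ⟨(2 * Real.pi * D1) ^ m * Real.exp μ ^ p, m + p, fun n => ?_⟩
  have h1 := F_one hc n
  have h2 := L_one hS n
  have h3 := hFL n
  have h4 : (0:ℝ) ≤ F n := by linarith
  have h5 : (0:ℝ) ≤ L n := by linarith
  have h6 := Sd_nonneg hS n
  have h7 := Sd_le hS n
  rw [abs_of_nonneg (by positivity)]
  calc (2 * Real.pi * F n) ^ m * (Sd κ μ L n) ^ p
      ≤ (2 * Real.pi * (D1 * L n)) ^ m * (Real.exp μ * L n) ^ p := by gcongr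
    _ = (2 * Real.pi * D1) ^ m * Real.exp μ ^ p * L n ^ (m + p) := by
        simp only [mul_pow, pow_add]; ring

/-- comparison of the group weights with powers of the frequencies -/
lemma wt_cmp (hc : Conc4 ν α α' κ μ lam g F L ℓ N G e) (hS : Sq4 κ μ lam Λ M L C ℓ B)
    (hα' : 0 ≤ α') (m p : ℕ) :
    ∃ D : ℝ, 0 ≤ D ∧ ∀ a k, e a k ≠ 0 →
      (2 * Real.pi * F (gr g a)) ^ m * (Sd κ μ L (gr g a)) ^ p ≤
        D * (2 * Real.pi * ‖vec k‖) ^ ((m : ℝ) + 2 * α' * p) := by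
  obtain ⟨D3, hD3, hSF⟩ := hc.S_F
  obtain ⟨D4, hD4, hcmp⟩ := hc.F_cmp
  refine ⟨D4 ^ m * (Real.exp μ * (D3 * D4 ^ (2 * α'))) ^ p, by positivity,
    fun a k hk => ?_⟩
  have h1 := hSF (gr g a)
  have h2 := hcmp a k hk
  have h3 := (hc.fsupp a k hk).1
  have h4 := F_one hc (gr g a)
  have h5 : (0:ℝ) ≤ F (gr g a) := by linarith
  have h6 := Sd_nonneg hS (gr g a)
  have h7 : (0:ℝ) < 2 * Real.pi * ‖vec k‖ := by
    have := Real.pi_pos
    positivity
  have h8 : (0:ℝ) ≤ 2 * α' := by linarith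
  have hL : κ ^ gr g a * L (gr g a) ≤
      (D3 * D4 ^ (2 * α')) * (2 * Real.pi * ‖vec k‖) ^ (2 * α') := by
    calc κ ^ gr g a * L (gr g a) ≤ D3 * F (gr g a) ^ (2 * α') := h1
      _ ≤ D3 * (D4 * ‖vec k‖) ^ (2 * α') := by
          gcongr
      _ = (D3 * D4 ^ (2 * α')) * ‖vec k‖ ^ (2 * α') := by
          rw [Real.mul_rpow hD4.le (norm_nonneg _)]; ring
      _ ≤ (D3 * D4 ^ (2 * α')) * (2 * Real.pi * ‖vec k‖) ^ (2 * α') := by
          gcongr
          have := Real.pi_gt_three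
          have h8 := norm_nonneg (vec k)
          nlinarith
  have hSd : Sd κ μ L (gr g a) ≤
      Real.exp μ * ((D3 * D4 ^ (2 * α')) * (2 * Real.pi * ‖vec k‖) ^ (2 * α')) := by
    unfold Sd
    exact mul_le_mul_of_nonneg_left hL (Real.exp_pos _).le
  have hF : 2 * Real.pi * F (gr g a) ≤ D4 * (2 * Real.pi * ‖vec k‖) := by
    have := Real.pi_pos
    calc 2 * Real.pi * F (gr g a) ≤ 2 * Real.pi * (D4 * ‖vec k‖) := by gcongr
      _ = _ := by ring
  have hr : (2 * Real.pi * ‖vec k‖) ^ ((m : ℝ) + 2 * α' * p) =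
      (2 * Real.pi * ‖vec k‖) ^ m * ((2 * Real.pi * ‖vec k‖) ^ (2 * α')) ^ p := by
    rw [Real.rpow_add h7, Real.rpow_natCast, Real.rpow_mul h7.le, Real.rpow_natCast]
  rw [hr]
  calc (2 * Real.pi * F (gr g a)) ^ m * (Sd κ μ L (gr g a)) ^ p
      ≤ (D4 * (2 * Real.pi * ‖vec k‖)) ^ m * (Real.exp μ *
        ((D3 * D4 ^ (2 * α')) * (2 * Real.pi * ‖vec k‖) ^ (2 * α'))) ^ p := by
        gcongr
    _ = _ := by
        simp only [mul_pow]; ring

theorem diss (hF : S_FLD2) (hc : Conc4 ν α α' κ μ lam g F L ℓ N G e) (hS : Sq4 κ μ lam Λ M L C ℓ B)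
    (hK : Ker g Λ M L C B c) (hν : 0 < ν) (hα : 1 ≤ α) (hα' : 0 ≤ α') :
    Diss4 ν α α' (fun a => fieldOf (e a)) (dF ℓ (Sd κ μ L) g) := by
  obtain ⟨M', h⟩ := bs_of hc hS hK
  obtain ⟨⟨hip, hcnv, hdir⟩, hcf⟩ := hF
  have hF : S_FLD2 := ⟨⟨hip, hcnv, hdir⟩, hcf⟩
  have hlam0 := dF_nonneg (g := g) hS
  -- the coefficients
  have hipV : ∀ V, OT V → Rap V → ∀ a, ip (fieldOf V) (fieldOf (e a)) = pair V (e a) :=
    fun V hV rV a => hip _ _ hV rV (h.ot a) (rap_e h a)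
  have hdsum : ∀ {z : Ix J → ℝ}, (∀ p : ℕ, ∃ Cp, ∀ a, L (gr g a) ^ p * |z a| ≤ Cp) →
      Summable (fun a => dF ℓ (Sd κ μ L) g a * z a ^ 2) := by
    intro z hz
    have h1 := (sq_of_rap h hz 1).mul_left (Real.exp μ)
    refine Summable.of_nonneg_of_le (fun a => mul_nonneg (hlam0 a) (sq_nonneg _)) (fun a => ?_) h1
    rw [pow_one, ← mul_assoc]
    exact mul_le_mul_of_nonneg_right (dF_le' hS a) (sq_nonneg _)
  refine ⟨?_, hlam0, ?_, ?_, ?_, ?_, ?_⟩
  · intro a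
    refine ⟨e a, h.ot a, ⟨F (gr g a), fun k hk => (hc.fsupp a k hk).2⟩, rfl⟩
  · intro i j
    show (i = j → ip (fieldOf (e i)) (fieldOf (e j)) = 1) ∧
      (i ≠ j → ip (fieldOf (e i)) (fieldOf (e j)) = 0)
    rw [hipV _ (h.ot i) (rap_e h i)]
    exact h.orth i j
  · rintro v ⟨V, hV0, hV, rfl⟩ h1 y
    have h2 : ∀ a, pair V (e a) = 0 := by
      intro a
      rw [← hipV _ hV0 hV]
      exact h1 a
    have h3 := h.compl V hV0 h2
    unfold fieldOf
    simp [h3]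
  · -- low
    rintro v ⟨V, hV0, hV, rfl⟩
    simp only [hipV _ hV0 hV]
    have hz := coef_rap h V hV
    have hs := hdsum hz
    refine ⟨hs, ?_⟩
    rw [sob_eq hF α V hV0 hV]
    have h1 := coercive h hν (w := fun k => (2 * Real.pi * ‖vec k‖) ^ (2 * α))
      (wm := fun n => (2 * Real.pi * F n) ^ (2 * α)) (ℓ := ℓ) (Sg := Sd κ μ L)
      (d := dF ℓ (Sd κ μ L) g) (z := fun a => pair V (e a))
      (fun k => by positivity) (fun n => by
        have := F_one hc n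
        positivity) ?_ (fun n => rfl) (fun j => rfl) hc.low hc.lowo
      (∑' a, dF ℓ (Sd κ μ L) g a * pair V (e a) ^ 2) (fun s =>
        hs.sum_le_tsum s (fun a _ => mul_nonneg (hlam0 a) (sq_nonneg _)))
    · rw [← expand h V hV0 hV] at h1
      exact h1
    · intro a k hk
      have h6 := (hc.fsupp a k hk).2
      have := Real.pi_pos
      apply Real.rpow_le_rpow (by positivity) _ (by linarith)
      gcongr
  · -- up
    obtain ⟨D, hD0, hD⟩ := wt_cmp hc hS hα' 0 1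
    refine ⟨D, ?_⟩
    rintro v ⟨V, hV0, hV, rfl⟩
    simp only [hipV _ hV0 hV]
    have hz := coef_rap h V hV
    have hs := hdsum hz
    rw [sob_eq hF _ V hV0 hV]
    obtain ⟨ω, hμ, hμ0⟩ := exists_mu h (fun n => (2 * Real.pi * F n) ^ 0 * (Sd κ μ L n) ^ 1)
    have hw := wt_bound hc hS 0 1
    have h1 := wpar h hz hw hμ
    rw [← expand h V hV0 hV] at h1
    have h2 := wsum_a h hz hw
    have h3 : ∑' a, dF ℓ (Sd κ μ L) g a * pair V (e a) ^ 2 ≤
        ∑' a, ((2 * Real.pi * F (gr g a)) ^ 0 * (Sd κ μ L (gr g a)) ^ 1) *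
          pair V (e a) ^ 2 := by
      refine hs.tsum_le_tsum (fun a => ?_) h2
      rw [pow_zero, one_mul, pow_one]
      exact mul_le_mul_of_nonneg_right (dF_le hS a) (sq_nonneg _)
    refine h3.trans ?_
    rw [← h1, ← tsum_mul_left]
    have h4 := wsum_k h hz hw hμ
    rw [← expand h V hV0 hV] at h4
    refine h4.tsum_le_tsum (fun k => ?_) ((sum_w hV _ (by linarith)).mul_left D)
    rw [← mul_assoc]
    refine mul_le_mul_of_nonneg_right ?_ (sq_nonneg _)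
    by_cases hk : ∃ a, e a k ≠ 0
    · obtain ⟨a, ha⟩ := hk
      rw [hμ a k ha]
      have h5 := hD a k ha
      refine h5.trans (le_of_eq ?_)
      norm_num
    · push Not at hk
      rw [hμ0 k hk]
      positivity
  · -- ord
    intro m
    obtain ⟨D, hD0, hD⟩ := wt_cmp hc hS hα' (2 * m) 2
    refine ⟨D, ?_⟩
    rintro v ⟨V, hV0, hV, rfl⟩
    simp only [hipV _ hV0 hV]
    have hz := coef_rap h V hV
    have hz' := dF_rap (ℓ := ℓ) hS hz
    set z' : Ix J → ℝ := fun a => dF ℓ (Sd κ μ L) g a * pair V (e a) with hz'def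
    have hg' : Summable (fun a => |z' a| * M' (gr g a)) := good_of_rap h hz'
    have hOT : OT (syn e z') := syn_ot h hg'
    have hRap : Rap (syn e z') := rap_syn h hz'
    refine ⟨fieldOf (syn e z'), ⟨_, hOT, hRap, rfl⟩, ?_, ?_⟩
    · intro i
      rw [hipV _ hOT hRap, pair_syn_e h hg']
    · rw [sob_eq hF _ _ hOT hRap, sob_eq hF _ V hV0 hV]
      obtain ⟨ω, hμ, hμ0⟩ := exists_mu h
        (fun n => (2 * Real.pi * F n) ^ (2 * m) * (Sd κ μ L n) ^ 0)
      obtain ⟨ω', hμ', hμ0'⟩ := exists_mu h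
        (fun n => (2 * Real.pi * F n) ^ (2 * m) * (Sd κ μ L n) ^ 2)
      have hw := wt_bound hc hS (2 * m) 0
      have hw' := wt_bound hc hS (2 * m) 2
      have h1 := wpar h hz' hw hμ
      have h1' := wpar h hz hw' hμ'
      rw [← expand h V hV0 hV] at h1'
      have h4 := wsum_k h hz' hw hμ
      have h4' := wsum_k h hz hw' hμ'
      rw [← expand h V hV0 hV] at h4'
      have hA : ∑' k : Z3, (2 * Real.pi * ‖vec k‖) ^ (2 * (m:ℝ)) * ‖syn e z' k‖ ^ 2 ≤
          ∑' k, ω k * ‖syn e z' k‖ ^ 2 := by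
        refine (sum_w hRap _ (by positivity)).tsum_le_tsum (fun k => ?_) h4
        by_cases hk : ∃ a, e a k ≠ 0
        · obtain ⟨a, ha⟩ := hk
          rw [hμ a k ha, pow_zero, mul_one]
          refine mul_le_mul_of_nonneg_right ?_ (sq_nonneg _)
          have h5 : (2 * Real.pi * ‖vec k‖) ^ (2 * (m:ℝ)) = (2 * Real.pi * ‖vec k‖) ^ (2 * m) := by
            rw [← Real.rpow_natCast]; push_cast; rfl
          rw [h5]
          have h6 := (hc.fsupp a k ha).2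
          have := Real.pi_pos
          gcongr
        · push Not at hk
          have : syn e z' k = 0 := by
            unfold syn
            simp [hk]
          rw [this]; simp
      have hB : ∑' a, ((2 * Real.pi * F (gr g a)) ^ (2 * m) * (Sd κ μ L (gr g a)) ^ 0) *
          z' a ^ 2 ≤ ∑' a, ((2 * Real.pi * F (gr g a)) ^ (2 * m) *
            (Sd κ μ L (gr g a)) ^ 2) * pair V (e a) ^ 2 := by
        refine (wsum_a h hz' hw).tsum_le_tsum (fun a => ?_) (wsum_a h hz hw')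
        rw [hz'def]
        simp only
        rw [pow_zero, mul_one, mul_pow (dF ℓ (Sd κ μ L) g a), ← mul_assoc]
        have h5 := dF_le (g := g) hS a
        have h6 := hlam0 a
        have h7 := F_one hc (gr g a)
        have h8 : (0:ℝ) ≤ F (gr g a) := by linarith
        gcongr
      have hC : ∑' k, ω' k * ‖V k‖ ^ 2 ≤
          D * ∑' k : Z3, (2 * Real.pi * ‖vec k‖) ^ (2 * ((m:ℝ) + 2 * α')) * ‖V k‖ ^ 2 := by
        rw [← tsum_mul_left]
        refine h4'.tsum_le_tsum (fun k => ?_) ((sum_w hV _ (by positivity)).mul_left D)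
        rw [← mul_assoc]
        refine mul_le_mul_of_nonneg_right ?_ (sq_nonneg _)
        by_cases hk : ∃ a, e a k ≠ 0
        · obtain ⟨a, ha⟩ := hk
          rw [hμ' a k ha]
          refine (hD a k ha).trans (le_of_eq ?_)
          congr 2
          push_cast
          ring
        · push Not at hk
          rw [hμ0' k hk]
          positivity
      rw [h1] at hA
      rw [h1'] at hC
      exact hA.trans (hB.trans hC)

end conc

end Pool.Agent.Y993.NF
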